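import Pool.Agent.TH536.EP.Siegel

set_option autoImplicit false
set_option maxHeartbeats 1000000

/-! # Simultaneous approximation of the numbers `Σ_j λ_ij t_j + r_i e^(k_i)` -/

namespace Pool.Agent.TH536.EP

open Finset Pool.Agent.W472.AC

/-- bounds for finite families -/
theorem exists_bound {M : ℕ} (f : Fin M → ℝ) : ∃ X : ℝ, 1 ≤ X ∧ ∀ i, |f i| ≤ X := by
  refine ⟨1 + ∑ i, |f i|, ?_, fun i => ?_⟩
  · have : 0 ≤ ∑ i, |f i| := Finset.sum_nonneg fun _ _ => abs_nonneg _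
    linarith
  · have := Finset.single_le_sum (f := fun i => |f i|) (fun _ _ => abs_nonneg _)
      (Finset.mem_univ i)
    linarith

theorem exists_nat_bound {M m : ℕ} (f : Fin m → Fin M → ℤ) :
    ∃ R : ℕ, 1 ≤ R ∧ ∀ j i, |f j i| ≤ R := by
  refine ⟨1 + ∑ j, ∑ i, (f j i).natAbs, by omega, fun j i => ?_⟩
  have h1 : (f j i).natAbs ≤ ∑ i, (f j i).natAbs :=
    Finset.single_le_sum (f := fun i => (f j i).natAbs) (fun _ _ => Nat.zero_le _)
      (Finset.mem_univ i)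
  have h2 : ∑ i, (f j i).natAbs ≤ ∑ j, ∑ i, (f j i).natAbs :=
    Finset.single_le_sum (f := fun j => ∑ i, (f j i).natAbs) (fun _ _ => Nat.zero_le _)
      (Finset.mem_univ j)
  rw [Int.abs_eq_natAbs]
  exact_mod_cast (by omega : (f j i).natAbs ≤ 1 + ∑ j, ∑ i, (f j i).natAbs)

theorem add_core (s M : ℕ) (hsM : s < M) (t : Fin s → ℝ) (l : Fin M → Fin s → ℤ)
    (k : Fin M → ℤ) (hk : Function.Injective k) (hk0 : ∀ i, k i ≠ 0) (r : Fin M → ℚ)
    (hr : ∀ i, r i ≠ 0) (η : ℝ) (hη : 0 < η) :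
    ∃ c : ℝ, 0 < c ∧ ∀ q : ℕ, 1 ≤ q → ∀ p : Fin M → ℤ,
      ∃ i, c * (q : ℝ) ^ (-((s + 1) / ((M : ℝ) - s)) - η) ≤
        |q * (∑ j, l i j * t j + r i * Real.exp (k i)) - p i| := by
  have hMs : (1 : ℝ) ≤ (M : ℝ) - s := by
    have : (s : ℝ) + 1 ≤ M := by exact_mod_cast hsM
    linarith
  have hMs0 : (0 : ℝ) < (M : ℝ) - s := by linarith
  obtain ⟨D, hD, σ, hσ, hDσ⟩ := common_den r hr
  have hD0 : (0 : ℝ) < D := by exact_mod_cast hD
  have hD1 : (1 : ℝ) ≤ D := by exact_mod_cast hD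
  obtain ⟨c, hc, hmeas⟩ := measGen M (Fin.cons 0 k) (by
    rw [Fin.cons_injective_iff]
    exact ⟨fun ⟨i, hi⟩ => hk0 i hi, hk⟩) η hη
  obtain ⟨X, hX1, hX⟩ := exists_bound fun i => (∑ j, l i j * t j + r i * Real.exp (k i))
  obtain ⟨Sm, hS1, hSm⟩ := exists_bound fun i => (σ i : ℝ)
  obtain ⟨E, hE1, hE⟩ := exists_bound fun i => (r i : ℝ) * Real.exp (k i)
  obtain ⟨R, hR1, hR⟩ := exists_nat_bound fun (j : Fin s) (i : Fin M) => l i j
  -- the box
  obtain ⟨C, hC⟩ : ∃ C : ℝ, C = ((2 * M + 1) ^ s * ∏ _j : Fin s, (R : ℝ)) ^ (1 / ((M : ℝ) - s)) :=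
    ⟨_, rfl⟩
  have hRR : (1 : ℝ) ≤ R := by exact_mod_cast hR1
  have hprod : (1 : ℝ) ≤ (2 * M + 1) ^ s * ∏ _j : Fin s, (R : ℝ) := by
    rw [Finset.prod_const]
    refine one_le_mul_of_one_le_of_one_le (one_le_pow₀ ?_) (one_le_pow₀ hRR)
    have : (0 : ℝ) ≤ M := Nat.cast_nonneg M
    linarith
  have hC1 : 1 ≤ C := by
    rw [hC]
    exact Real.one_le_rpow hprod (by positivity)
  -- height
  obtain ⟨H, hH⟩ : ∃ H : ℝ, H = (D * (M * (E + 1)) + Sm) * C := ⟨_, rfl⟩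
  have hM1 : (1 : ℝ) ≤ M := by
    have : (0 : ℝ) ≤ s := Nat.cast_nonneg s
    linarith
  have hH0 : 1 ≤ H := by
    rw [hH]
    refine one_le_mul_of_one_le_of_one_le ?_ hC1
    have : (0 : ℝ) ≤ D * (M * (E + 1)) := by positivity
    linarith
  obtain ⟨c₂, hc₂⟩ : ∃ c₂ : ℝ, c₂ = c / (H ^ ((M : ℝ) + η) * D * (M * C)) := ⟨_, rfl⟩
  have hc₂0 : 0 < c₂ := by
    rw [hc₂]
    positivity
  refine ⟨min 1 (c₂ / 2), lt_min one_pos (by positivity), fun q hq p => ?_⟩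
  have hq1 : (1 : ℝ) ≤ q := by exact_mod_cast hq
  have hq0 : (0 : ℝ) < q := by linarith
  by_contra hcon
  push Not at hcon
  obtain ⟨δ, hδdef⟩ : ∃ δ : ℝ, δ = min 1 (c₂ / 2) * (q : ℝ) ^ (-((s + 1) / ((M : ℝ) - s)) - η) :=
    ⟨_, rfl⟩
  rw [← hδdef] at hcon
  have hexp : (q : ℝ) ^ (-((s + 1) / ((M : ℝ) - s)) - η) ≤ 1 := by
    apply Real.rpow_le_one_of_one_le_of_nonpos hq1
    have : 0 ≤ ((s : ℝ) + 1) / ((M : ℝ) - s) := by positivity
    linarith
  have hδ1 : δ ≤ 1 := by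
    rw [hδdef]
    calc min 1 (c₂ / 2) * (q : ℝ) ^ (-((s + 1) / ((M : ℝ) - s)) - η) ≤ 1 * 1 :=
          mul_le_mul (min_le_left _ _) hexp (by positivity) zero_le_one
      _ = 1 := one_mul 1
  obtain ⟨w, hw0, hwl, ⟨a, ha⟩, hwT⟩ := siegel M s hsM (fun j i => l i j) (fun _ => R)
    (fun _ => hR1) hR q hq p
  obtain ⟨T, hT⟩ : ∃ T : ℝ, T = C * (q : ℝ) ^ (1 / ((M : ℝ) - s)) := ⟨_, rfl⟩
  have hqr : 1 ≤ (q : ℝ) ^ (1 / ((M : ℝ) - s)) := Real.one_le_rpow hq1 (by positivity)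
  have hT1 : 1 ≤ T := by
    rw [hT]
    exact one_le_mul_of_one_le_of_one_le hC1 hqr
  have hwT' : ∀ i, |(w i : ℝ)| ≤ T := by
    intro i
    refine (hwT i).trans (le_of_eq ?_)
    rw [hT, hC, Real.mul_rpow hq0.le (by linarith), mul_comm]
  have hδ0 : 0 ≤ δ := by
    by_contra h
    push Not at h
    have := (abs_nonneg _).trans_lt (hcon ⟨0, by omega⟩)
    linarith
  -- the identity
  have hid : ∑ i, (w i : ℝ) * (q * (∑ j, l i j * t j + r i * Real.exp (k i)) - p i) =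
      q * (∑ i, (w i : ℝ) * (r i * Real.exp (k i)) - a) := by
    have h1 : ∑ i, (w i : ℝ) * ∑ j, (l i j : ℝ) * t j = 0 := by
      simp_rw [Finset.mul_sum]
      rw [Finset.sum_comm]
      refine Finset.sum_eq_zero fun j _ => ?_
      have h2 : ∑ i, (w i : ℝ) * ((l i j : ℝ) * t j) = ((∑ i, w i * l i j : ℤ) : ℝ) * t j := by
        push_cast
        rw [Finset.sum_mul]
        exact Finset.sum_congr rfl fun i _ => by ring
      rw [h2, hwl j]
      simp
    have h3 : ∑ i, (w i : ℝ) * (p i : ℝ) = q * a := by exact_mod_cast ha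
    calc ∑ i, (w i : ℝ) * (q * (∑ j, l i j * t j + r i * Real.exp (k i)) - p i)
        = q * (∑ i, (w i : ℝ) * ∑ j, (l i j : ℝ) * t j) +
          q * (∑ i, (w i : ℝ) * (r i * Real.exp (k i))) - ∑ i, (w i : ℝ) * (p i : ℝ) := by
          rw [Finset.mul_sum, Finset.mul_sum, ← Finset.sum_add_distrib, ← Finset.sum_sub_distrib]
          exact Finset.sum_congr rfl fun i _ => by ring
      _ = _ := by rw [h1, h3]; ring
  have hup : |∑ i, (w i : ℝ) * (q * (∑ j, l i j * t j + r i * Real.exp (k i)) - p i)| ≤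
      M * (T * δ) := by
    calc |∑ i, (w i : ℝ) * (q * (∑ j, l i j * t j + r i * Real.exp (k i)) - p i)|
        ≤ ∑ i, |(w i : ℝ) * (q * (∑ j, l i j * t j + r i * Real.exp (k i)) - p i)| :=
          Finset.abs_sum_le_sum_abs _ _
      _ ≤ ∑ _i : Fin M, (T * δ) := by
          refine Finset.sum_le_sum fun i _ => ?_
          rw [abs_mul]
          exact mul_le_mul (hwT' i) (hcon i).le (abs_nonneg _) (by linarith)
      _ = M * (T * δ) := by
          rw [Finset.sum_const, Finset.card_univ, Fintype.card_fin, nsmul_eq_mul]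
  -- the size of `a`
  have ha' : |(a : ℝ)| ≤ M * (E + 1) * T := by
    have h1 : |∑ i, (w i : ℝ) * (r i * Real.exp (k i))| ≤ M * (T * E) := by
      calc |∑ i, (w i : ℝ) * (r i * Real.exp (k i))|
          ≤ ∑ i, |(w i : ℝ) * (r i * Real.exp (k i))| := Finset.abs_sum_le_sum_abs _ _
        _ ≤ ∑ _i : Fin M, (T * E) := by
            refine Finset.sum_le_sum fun i _ => ?_
            rw [abs_mul]
            exact mul_le_mul (hwT' i) (hE i) (abs_nonneg _) (by linarith)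
        _ = M * (T * E) := by
            rw [Finset.sum_const, Finset.card_univ, Fintype.card_fin, nsmul_eq_mul]
    have h2 : |(q : ℝ) * (∑ i, (w i : ℝ) * (r i * Real.exp (k i)) - a)| ≤ q * (M * T) := by
      rw [← hid]
      refine hup.trans ?_
      have h3 : M * (T * δ) ≤ M * T := by
        have : T * δ ≤ T := by nlinarith
        exact mul_le_mul_of_nonneg_left this (by linarith)
      have h4 : (M : ℝ) * T ≤ q * (M * T) := by
        have : 0 ≤ (M : ℝ) * T := by positivity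
        nlinarith
      linarith
    rw [abs_mul, abs_of_pos hq0] at h2
    have h3 := le_of_mul_le_mul_left h2 hq0
    have h4 := abs_sub_abs_le_abs_sub (a : ℝ) (∑ i, (w i : ℝ) * (r i * Real.exp (k i)))
    rw [abs_sub_comm] at h4
    nlinarith
  -- the linear form in the powers of `e`
  have hne : (Fin.cons (-(D * a)) (fun i => w i * σ i) : Fin (M + 1) → ℤ) ≠ 0 := by
    intro h
    apply hw0
    funext i
    have h1 := congrFun h i.succ
    simp only [Fin.cons_succ, Pi.zero_apply] at h1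
    rcases mul_eq_zero.1 h1 with h2 | h2
    · exact h2
    · exact absurd h2 (hσ i)
  have hform : ∑ i : Fin (M + 1), (((Fin.cons (-(D * a)) (fun i => w i * σ i) :
      Fin (M + 1) → ℤ) i : ℤ) : ℝ) * Real.exp (((Fin.cons 0 k : Fin (M + 1) → ℤ) i : ℤ) : ℝ) =
      D * (∑ i, (w i : ℝ) * (r i * Real.exp (k i)) - a) := by
    rw [Fin.sum_univ_succ]
    simp only [Fin.cons_zero, Fin.cons_succ]
    push_cast
    rw [Real.exp_zero, mul_sub, Finset.mul_sum]
    have h1 : ∀ i, (w i : ℝ) * (σ i : ℝ) * Real.exp (k i) = D * (w i * (r i * Real.exp (k i))) := by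
      intro i
      rw [← hDσ i]
      ring
    rw [Finset.sum_congr rfl fun i _ => h1 i]
    ring
  obtain ⟨Hh, hHh⟩ : ∃ Hh : ℝ, Hh = (D * (M * (E + 1)) + Sm) * T := ⟨_, rfl⟩
  have hDM : 0 ≤ (D : ℝ) * (M * (E + 1)) := by positivity
  have h1 := hmeas _ hne Hh (by
    rw [hHh]
    exact one_le_mul_of_one_le_of_one_le (by linarith) hT1) (fun i => by
    refine Fin.cases ?_ (fun i => ?_) i
    · simp only [Fin.cons_zero]
      push_cast
      rw [abs_neg, abs_mul, abs_of_pos hD0, hHh]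
      have h2 := mul_le_mul_of_nonneg_left ha' hD0.le
      have h3 : 0 ≤ Sm * T := by positivity
      calc (D : ℝ) * |(a : ℝ)| ≤ D * (M * (E + 1) * T) := h2
        _ ≤ D * (M * (E + 1) * T) + Sm * T := by linarith
        _ = _ := by ring
    · simp only [Fin.cons_succ]
      push_cast
      rw [abs_mul, hHh]
      have h2 : |(w i : ℝ)| * |(σ i : ℝ)| ≤ T * Sm :=
        mul_le_mul (hwT' i) (hSm i) (abs_nonneg _) (by linarith)
      have h3 : 0 ≤ (D : ℝ) * (M * (E + 1)) * T := by positivity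
      calc |(w i : ℝ)| * |(σ i : ℝ)| ≤ T * Sm := h2
        _ ≤ _ := by linarith)
  rw [hform] at h1
  -- combine
  have h2 : q * |D * (∑ i, (w i : ℝ) * (r i * Real.exp (k i)) - a)| ≤ D * (M * (T * δ)) := by
    rw [hid, abs_mul, abs_of_pos hq0] at hup
    rw [abs_mul, abs_of_pos hD0]
    calc q * (D * |∑ i, (w i : ℝ) * (r i * Real.exp (k i)) - a|)
        = D * (q * |∑ i, (w i : ℝ) * (r i * Real.exp (k i)) - a|) := by ring
      _ ≤ _ := mul_le_mul_of_nonneg_left hup hD0.le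
  have hHT : Hh = H * (q : ℝ) ^ (1 / ((M : ℝ) - s)) := by
    rw [hHh, hT, hH]
    ring
  have h3 : c * q ≤ Hh ^ ((M : ℝ) + η) * (D * (M * (T * δ))) := by
    calc c * q ≤ (Hh ^ ((M : ℝ) + η) * |D * (∑ i, (w i : ℝ) * (r i * Real.exp (k i)) - a)|) * q :=
          mul_le_mul_of_nonneg_right h1 hq0.le
      _ = Hh ^ ((M : ℝ) + η) * (q * |D * (∑ i, (w i : ℝ) * (r i * Real.exp (k i)) - a)|) := by ring
      _ ≤ _ := mul_le_mul_of_nonneg_left h2 (by rw [hHT]; positivity)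
  have h4 : Hh ^ ((M : ℝ) + η) * (D * (M * (T * δ))) =
      (H ^ ((M : ℝ) + η) * D * (M * C)) * ((q : ℝ) * ((q : ℝ) ^ ((s + 1) / ((M : ℝ) - s) +
        η / ((M : ℝ) - s)) * δ)) := by
    rw [hHT, Real.mul_rpow (by linarith) (by positivity), hT, ← Real.rpow_mul hq0.le]
    have h5 : (q : ℝ) ^ (1 / ((M : ℝ) - s) * ((M : ℝ) + η)) * (q : ℝ) ^ (1 / ((M : ℝ) - s)) =
        q * (q : ℝ) ^ ((s + 1) / ((M : ℝ) - s) + η / ((M : ℝ) - s)) := by
      rw [← Real.rpow_add hq0, ← Real.rpow_one_add' hq0.le (by positivity)]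
      congr 1
      field_simp
      ring
    calc H ^ ((M : ℝ) + η) * (q : ℝ) ^ (1 / ((M : ℝ) - s) * ((M : ℝ) + η)) *
          (D * (M * (C * (q : ℝ) ^ (1 / ((M : ℝ) - s)) * δ)))
        = (H ^ ((M : ℝ) + η) * D * (M * C)) * (((q : ℝ) ^ (1 / ((M : ℝ) - s) * ((M : ℝ) + η)) *
          (q : ℝ) ^ (1 / ((M : ℝ) - s))) * δ) := by ring
      _ = _ := by rw [h5]; ring
  have h5 : c₂ ≤ (q : ℝ) ^ ((s + 1) / ((M : ℝ) - s) + η / ((M : ℝ) - s)) * δ := by
    rw [hc₂, div_le_iff₀ (by positivity)]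
    refine le_of_mul_le_mul_left ?_ hq0
    calc q * c = c * q := mul_comm _ _
      _ ≤ _ := h3
      _ = _ := h4
      _ = _ := by ring
  have h6 : (q : ℝ) ^ ((s + 1) / ((M : ℝ) - s) + η / ((M : ℝ) - s)) * δ ≤ c₂ / 2 := by
    have hqn : (q : ℝ) ^ (η / ((M : ℝ) - s) - η) ≤ 1 := by
      apply Real.rpow_le_one_of_one_le_of_nonpos hq1
      have : η / ((M : ℝ) - s) ≤ η := div_le_self hη.le hMs
      linarith
    rw [hδdef]
    calc (q : ℝ) ^ ((s + 1) / ((M : ℝ) - s) + η / ((M : ℝ) - s)) *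
          (min 1 (c₂ / 2) * (q : ℝ) ^ (-((s + 1) / ((M : ℝ) - s)) - η))
        = min 1 (c₂ / 2) * (q : ℝ) ^ (η / ((M : ℝ) - s) - η) := by
          rw [mul_left_comm, ← Real.rpow_add hq0]
          congr 2
          ring
      _ ≤ (c₂ / 2) * 1 := mul_le_mul (min_le_right _ _) hqn (by positivity) (by positivity)
      _ = c₂ / 2 := mul_one _
  linarith

end Pool.Agent.TH536.EP
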