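import Pool.Agent.W472.AC.EMeas2

set_option autoImplicit false
set_option maxHeartbeats 1000000

/-! # Simultaneous approximation of `t e^k`, `t + e^k` for arbitrary real `t`

Tools: the measure of linear independence of powers of `e` (`Pool.Agent.W472.AC.e_meas`) for arbitrary
integral exponents, and a weighted pigeonhole principle. -/

namespace Pool.Agent.TH536.EP

open Finset Pool.Agent.W472.AC

/-- the measure for arbitrary distinct integral exponents -/
theorem measGen (n : ℕ) (k : Fin (n + 1) → ℤ) (hinj : Function.Injective k) (η : ℝ) (hη : 0 < η) :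
    ∃ c : ℝ, 0 < c ∧ Meas (fun i => Real.exp (k i)) (n + η) c := by
  obtain ⟨i0, -, hi0⟩ := Finset.exists_min_image (Finset.univ : Finset (Fin (n + 1))) k
    ⟨0, Finset.mem_univ _⟩
  obtain ⟨c, hc, h⟩ := e_meas n (fun i => k (Equiv.swap 0 i0 i) - k i0)
    (fun i j hij => (Equiv.swap 0 i0).injective (hinj (by simpa using hij)))
    (by simp) (fun i => by have := hi0 (Equiv.swap 0 i0 i) (Finset.mem_univ _); omega) η hη
  refine ⟨c * Real.exp (k i0), by positivity, fun a ha H hH haH => ?_⟩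
  have h1 := h (fun i => a (Equiv.swap 0 i0 i)) (by
    intro h0
    apply ha
    funext i
    have := congrFun h0 (Equiv.swap 0 i0 i)
    simpa using this) H hH (fun j => haH _)
  have h2 : ∑ i, (a i : ℝ) * Real.exp (k i) =
      Real.exp (k i0) * ∑ i, ((a (Equiv.swap 0 i0 i) : ℤ) : ℝ) *
        Real.exp (((k (Equiv.swap 0 i0 i) - k i0 : ℤ)) : ℝ) := by
    rw [← Equiv.sum_comp (Equiv.swap 0 i0) (fun i => (a i : ℝ) * Real.exp (k i)), Finset.mul_sum]
    refine Finset.sum_congr rfl fun i _ => ?_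
    push_cast
    rw [Real.exp_sub]
    field_simp
  rw [h2, abs_mul, abs_of_pos (Real.exp_pos _)]
  have h3 := mul_le_mul_of_nonneg_right h1 (Real.exp_pos (k i0 : ℝ)).le
  calc c * Real.exp (k i0) ≤ _ := h3
    _ = _ := by ring

/-- pigeonhole: a map from a box of integer vectors to a small set -/
theorem pigeon {ι β : Type*} [Fintype ι] [DecidableEq ι] [DecidableEq β] (T : ι → ℕ) (V : Finset β)
    (f : (ι → ℤ) → β) (hf : ∀ u : ι → ℤ, (∀ i, 0 ≤ u i ∧ u i ≤ T i) → f u ∈ V)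
    (hcard : V.card < ∏ i, (T i + 1)) :
    ∃ u v : ι → ℤ, u ≠ v ∧ (∀ i, |u i - v i| ≤ T i) ∧ (∀ i, 0 ≤ u i ∧ u i ≤ T i) ∧
      (∀ i, 0 ≤ v i ∧ v i ≤ T i) ∧ f u = f v := by
  set S : Finset (ι → ℤ) := Fintype.piFinset fun i => Finset.Icc (0 : ℤ) (T i) with hS
  have hSc : S.card = ∏ i, (T i + 1) := by
    rw [hS, Fintype.card_piFinset]
    refine Finset.prod_congr rfl fun i _ => ?_
    rw [Int.card_Icc]
    omega
  have hmem : ∀ u : ι → ℤ, u ∈ S ↔ ∀ i, 0 ≤ u i ∧ u i ≤ T i := by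
    intro u
    rw [hS, Fintype.mem_piFinset]
    exact forall_congr' fun i => Finset.mem_Icc
  obtain ⟨u, hu, v, hv, huv, hfuv⟩ := Finset.exists_ne_map_eq_of_card_lt_of_maps_to
    (s := S) (t := V) (by rw [hSc]; exact hcard) (f := f)
    (fun u hu => hf u ((hmem u).1 hu))
  have hu' := (hmem u).1 hu
  have hv' := (hmem v).1 hv
  refine ⟨u, v, huv, fun i => ?_, hu', hv', hfuv⟩
  have h1 := hu' i
  have h2 := hv' i
  rw [abs_le]
  omega

/-- common denominator -/
theorem common_den {n : ℕ} (r : Fin n → ℚ) (hr : ∀ i, r i ≠ 0) :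
    ∃ D : ℕ, 1 ≤ D ∧ ∃ s : Fin n → ℤ, (∀ i, s i ≠ 0) ∧ ∀ i, (D : ℝ) * (r i : ℝ) = s i := by
  refine ⟨∏ i, (r i).den, Nat.one_le_iff_ne_zero.2 (Finset.prod_ne_zero_iff.2 fun i _ => (r i).den_nz),
    fun i => (r i).num * ∏ j ∈ Finset.univ.erase i, ((r j).den : ℤ), fun i => ?_, fun i => ?_⟩
  · refine mul_ne_zero (Rat.num_ne_zero.2 (hr i)) (Finset.prod_ne_zero_iff.2 fun j _ => ?_)
    exact_mod_cast (r j).den_nz
  · rw [← Finset.mul_prod_erase Finset.univ (fun j => (r j).den) (Finset.mem_univ i)]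
    have h1 : ((r i : ℚ) : ℝ) = ((r i).num : ℝ) / ((r i).den : ℝ) := by
      exact_mod_cast (congrArg (fun x : ℚ => (x : ℝ)) (Rat.num_div_den (r i)).symm)
    have h2 : ((r i).den : ℝ) ≠ 0 := by exact_mod_cast (r i).den_nz
    rw [h1]
    push_cast
    field_simp

end Pool.Agent.TH536.EP
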