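import Pool.Agent.TH536.EP.Mul

set_option autoImplicit false
set_option maxHeartbeats 1000000

/-! # How many of the numbers are well approximable with a common denominator -/

namespace Pool.Agent.TH536.EP

open Finset

theorem count_of_core {M : ℕ} (x : Fin M → ℝ) (a b : ℝ) (hb : 0 < b)
    (h : ∀ A : Finset (Fin M), a < A.card → ∀ η : ℝ, 0 < η → ∃ c : ℝ, 0 < c ∧
      ∀ q : ℕ, 1 ≤ q → ∀ p : Fin M → ℤ, ∃ i ∈ A,
        c * (q : ℝ) ^ (-(b / (A.card - a)) - η) ≤ |q * x i - p i|)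
    (ε : ℝ) (hε : 0 < ε) :
    ∃ Q : ℕ, ∀ q : ℕ, Q ≤ q →
      (({i | ∃ p : ℤ, |q * x i - p| < (q : ℝ) ^ (-ε)} : Set (Fin M)).ncard : ℝ) ≤ a + b / ε := by
  classical
  have key : ∀ A : Finset (Fin M), ∃ Q : ℕ, ∀ q : ℕ, Q ≤ q → a + b / ε < A.card →
      ∃ i ∈ A, ∀ p : ℤ, ¬ |q * x i - p| < (q : ℝ) ^ (-ε) := by
    intro A
    by_cases hA : a + b / ε < A.card
    · have hbε : 0 < b / ε := by positivity
      have hA' : a < A.card := by linarith
      have hd : 0 < (A.card : ℝ) - a := by linarith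
      have h1 : b / (A.card - a) < ε := by
        rw [div_lt_iff₀ hd]
        have h2 : b / ε < A.card - a := by linarith
        rw [div_lt_iff₀ hε] at h2
        linarith
      obtain ⟨η, hη⟩ : ∃ η : ℝ, η = (ε - b / (A.card - a)) / 2 := ⟨_, rfl⟩
      have hη0 : 0 < η := by rw [hη]; linarith
      obtain ⟨c, hc, hcq⟩ := h A hA' η hη0
      have hlim : Filter.Tendsto (fun q : ℕ => (q : ℝ) ^ η) Filter.atTop Filter.atTop :=
        (tendsto_rpow_atTop hη0).comp tendsto_natCast_atTop_atTop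
      obtain ⟨Q, hQ⟩ := (hlim.eventually_gt_atTop (1 / c)).exists_forall_of_atTop
      refine ⟨max Q 1, fun q hq _ => ?_⟩
      by_contra hcon
      push Not at hcon
      choose! p hp using hcon
      obtain ⟨i, hiA, hi⟩ := hcq q (le_trans (le_max_right _ _) hq) p
      have hq1 : (1 : ℝ) ≤ q := by exact_mod_cast le_trans (le_max_right _ _) hq
      have hq0 : (0 : ℝ) < q := by linarith
      have h3 := hQ q (le_trans (le_max_left _ _) hq)
      have h4 := hi.trans_lt (hp i hiA)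
      have h5 : (q : ℝ) ^ (-(b / (A.card - a)) - η) = (q : ℝ) ^ (-ε) * (q : ℝ) ^ η := by
        rw [← Real.rpow_add hq0]
        congr 1
        rw [hη]
        ring
      rw [h5] at h4
      have h6 : 0 < (q : ℝ) ^ (-ε) := by positivity
      have h7 : 1 < c * (q : ℝ) ^ η := by
        rw [div_lt_iff₀ hc] at h3
        linarith
      have h8 : (q : ℝ) ^ (-ε) < c * ((q : ℝ) ^ (-ε) * (q : ℝ) ^ η) := by
        calc (q : ℝ) ^ (-ε) = (q : ℝ) ^ (-ε) * 1 := (mul_one _).symm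
          _ < (q : ℝ) ^ (-ε) * (c * (q : ℝ) ^ η) := mul_lt_mul_of_pos_left h7 h6
          _ = _ := by ring
      linarith
    · exact ⟨0, fun q _ h' => absurd h' hA⟩
  choose Q hQ using key
  refine ⟨Finset.univ.sup Q, fun q hq => ?_⟩
  by_contra hcon
  push Not at hcon
  obtain ⟨S, hS⟩ : ∃ S : Finset (Fin M), S =
      ({i | ∃ p : ℤ, |q * x i - p| < (q : ℝ) ^ (-ε)} : Set (Fin M)).toFinset := ⟨_, rfl⟩
  rw [Set.ncard_eq_toFinset_card', ← hS] at hcon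
  obtain ⟨i, hiS, hi⟩ := hQ S q ((Finset.le_sup (Finset.mem_univ S)).trans hq) hcon
  rw [hS, Set.mem_toFinset] at hiS
  obtain ⟨p, hp⟩ := hiS
  exact hi p hp

theorem add_all (s M : ℕ) (t : Fin s → ℝ) (l : Fin M → Fin s → ℤ)
    (k : Fin M → ℤ) (hk : Function.Injective k) (hk0 : ∀ i, k i ≠ 0) (r : Fin M → ℚ)
    (hr : ∀ i, r i ≠ 0) (A : Finset (Fin M)) (hA : (s : ℝ) < A.card) (η : ℝ) (hη : 0 < η) :
    ∃ c : ℝ, 0 < c ∧ ∀ q : ℕ, 1 ≤ q → ∀ p : Fin M → ℤ, ∃ i ∈ A,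
      c * (q : ℝ) ^ (-((s + 1) / ((A.card : ℝ) - s)) - η) ≤
        |q * (∑ j, l i j * t j + r i * Real.exp (k i)) - p i| := by
  obtain ⟨m, hm⟩ : ∃ m : ℕ, A.card = m := ⟨_, rfl⟩
  obtain ⟨f, hf⟩ : ∃ f : Fin m ↪o Fin M, ∀ i, f i ∈ A :=
    ⟨A.orderEmbOfFin hm, fun i => A.orderEmbOfFin_mem hm i⟩
  rw [hm] at hA ⊢
  obtain ⟨c, hc, h⟩ := add_core s m (by exact_mod_cast hA) t (fun i => l (f i)) (fun i => k (f i))
    (hk.comp f.injective) (fun i => hk0 (f i)) (fun i => r (f i)) (fun i => hr (f i)) η hη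
  refine ⟨c, hc, fun q hq p => ?_⟩
  obtain ⟨i, hi⟩ := h q hq fun i => p (f i)
  exact ⟨f i, hf i, hi⟩

theorem mul_all (τ : ℝ) (hτ : τ ≠ 0) (s M : ℕ) (t : Fin s → ℝ) (l : Fin M → Fin s → ℤ)
    (k : Fin M → ℤ) (hk : Function.Injective k) (r : Fin M → ℚ)
    (hr : ∀ i, r i ≠ 0) (A : Finset (Fin M)) (hA : (s : ℝ) + 1 < A.card) (η : ℝ) (hη : 0 < η) :
    ∃ c : ℝ, 0 < c ∧ ∀ q : ℕ, 1 ≤ q → ∀ p : Fin M → ℤ, ∃ i ∈ A,
      c * (q : ℝ) ^ (-((s + 1) / ((A.card : ℝ) - (s + 1))) - η) ≤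
        |q * (∑ j, l i j * t j + τ * r i * Real.exp (k i)) - p i| := by
  obtain ⟨m, hm⟩ : ∃ m : ℕ, A.card = m + 1 := by
    refine ⟨A.card - 1, ?_⟩
    have : 0 < A.card := by
      by_contra h
      have : A.card = 0 := by omega
      rw [this] at hA
      have : (0 : ℝ) ≤ s := Nat.cast_nonneg s
      push_cast at hA
      linarith
    omega
  obtain ⟨f, hf⟩ : ∃ f : Fin (m + 1) ↪o Fin M, ∀ i, f i ∈ A :=
    ⟨A.orderEmbOfFin hm, fun i => A.orderEmbOfFin_mem hm i⟩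
  rw [hm] at hA ⊢
  obtain ⟨c, hc, h⟩ := mul_core τ hτ s m (by
    have : (s : ℝ) < m := by push_cast at hA; linarith
    exact_mod_cast this) t (fun i => l (f i)) (fun i => k (f i))
    (hk.comp f.injective) (fun i => r (f i)) (fun i => hr (f i)) η hη
  refine ⟨c, hc, fun q hq p => ?_⟩
  obtain ⟨i, hi⟩ := h q hq fun i => p (f i)
  refine ⟨f i, hf i, ?_⟩
  have h1 : (((m + 1 : ℕ) : ℝ) - (s + 1)) = (m : ℝ) - s := by
    push_cast
    ring
  rw [h1]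
  exact hi

end Pool.Agent.TH536.EP
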