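import Pool.Agent.TH536.EP.Add

set_option autoImplicit false
set_option maxHeartbeats 1000000

/-! # Simultaneous approximation of the numbers `Σ_j λ_ij t_j + τ r_i e^(k_i)` -/

namespace Pool.Agent.TH536.EP

open Finset Pool.Agent.W472.AC

theorem mul_core (τ : ℝ) (hτ : τ ≠ 0) (s n : ℕ) (hsn : s < n) (t : Fin s → ℝ)
    (l : Fin (n + 1) → Fin s → ℤ) (k : Fin (n + 1) → ℤ) (hk : Function.Injective k)
    (r : Fin (n + 1) → ℚ) (hr : ∀ i, r i ≠ 0) (η : ℝ) (hη : 0 < η) :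
    ∃ c : ℝ, 0 < c ∧ ∀ q : ℕ, 1 ≤ q → ∀ p : Fin (n + 1) → ℤ,
      ∃ i, c * (q : ℝ) ^ (-((s + 1) / ((n : ℝ) - s)) - η) ≤
        |q * (∑ j, l i j * t j + τ * r i * Real.exp (k i)) - p i| := by
  have hMs : (1 : ℝ) ≤ (n : ℝ) - s := by
    have : (s : ℝ) + 1 ≤ n := by exact_mod_cast hsn
    linarith
  have hMs0 : (0 : ℝ) < (n : ℝ) - s := by linarith
  obtain ⟨D, hD, σ, hσ, hDσ⟩ := common_den r hr
  have hD0 : (0 : ℝ) < D := by exact_mod_cast hD
  obtain ⟨c, hc, hmeas⟩ := measGen n k hk η hη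
  have hτ0 : 0 < |τ| := abs_pos.2 hτ
  obtain ⟨X, hX1, hX⟩ := exists_bound fun i => (∑ j, l i j * t j + τ * r i * Real.exp (k i))
  obtain ⟨Sm, hS1, hSm⟩ := exists_bound fun i => (σ i : ℝ)
  obtain ⟨R, hR1, hR⟩ := exists_nat_bound fun (j : Fin s) (i : Fin (n + 1)) => l i j
  -- the box
  obtain ⟨Y, hY⟩ : ∃ Y : ℝ, Y = (2 * ((n + 1 : ℕ) : ℝ) + 1) ^ (s + 1) *
      ((X + 1) * ∏ _j : Fin s, (R : ℝ)) := ⟨_, rfl⟩
  obtain ⟨C, hC⟩ : ∃ C : ℝ, C = Y ^ (1 / ((n : ℝ) - s)) := ⟨_, rfl⟩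
  have hRR : (1 : ℝ) ≤ R := by exact_mod_cast hR1
  have hY1 : 1 ≤ Y := by
    rw [hY, Finset.prod_const]
    refine one_le_mul_of_one_le_of_one_le (one_le_pow₀ ?_)
      (one_le_mul_of_one_le_of_one_le (by linarith) (one_le_pow₀ hRR))
    have : (0 : ℝ) ≤ ((n + 1 : ℕ) : ℝ) := Nat.cast_nonneg _
    linarith
  have hC1 : 1 ≤ C := by
    rw [hC]
    exact Real.one_le_rpow hY1 (by positivity)
  obtain ⟨c₂, hc₂⟩ : ∃ c₂ : ℝ, c₂ = c * |τ| /
      ((Sm * C) ^ ((n : ℝ) + η) * D * ((n + 1) * C)) := ⟨_, rfl⟩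
  have hc₂0 : 0 < c₂ := by
    rw [hc₂]
    positivity
  refine ⟨min 1 (c₂ / 2), lt_min one_pos (by positivity), fun q hq p => ?_⟩
  have hq1 : (1 : ℝ) ≤ q := by exact_mod_cast hq
  have hq0 : (0 : ℝ) < q := by linarith
  by_contra hcon
  push Not at hcon
  obtain ⟨δ, hδdef⟩ : ∃ δ : ℝ, δ = min 1 (c₂ / 2) * (q : ℝ) ^ (-((s + 1) / ((n : ℝ) - s)) - η) :=
    ⟨_, rfl⟩
  rw [← hδdef] at hcon
  have hexp : (q : ℝ) ^ (-((s + 1) / ((n : ℝ) - s)) - η) ≤ 1 := by
    apply Real.rpow_le_one_of_one_le_of_nonpos hq1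
    have : 0 ≤ ((s : ℝ) + 1) / ((n : ℝ) - s) := by positivity
    linarith
  have hδ1 : δ ≤ 1 := by
    rw [hδdef]
    calc min 1 (c₂ / 2) * (q : ℝ) ^ (-((s + 1) / ((n : ℝ) - s)) - η) ≤ 1 * 1 :=
          mul_le_mul (min_le_left _ _) hexp (by positivity) zero_le_one
      _ = 1 := one_mul 1
  have hδ0 : 0 ≤ δ := (abs_nonneg _).trans (hcon 0).le
  -- the size of `p`
  have hp : ∀ i, |(p i : ℝ)| ≤ q * (X + 1) := by
    intro i
    have h1 := (hcon i).le.trans hδ1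
    have h2 : |(q : ℝ) * (∑ j, l i j * t j + τ * r i * Real.exp (k i))| ≤ q * X := by
      rw [abs_mul, abs_of_pos hq0]
      exact mul_le_mul_of_nonneg_left (hX i) hq0.le
    have h3 := abs_sub_abs_le_abs_sub (p i : ℝ)
      (q * (∑ j, l i j * t j + τ * r i * Real.exp (k i)))
    rw [abs_sub_comm] at h3
    calc |(p i : ℝ)| ≤ q * X + 1 := by linarith
      _ ≤ q * (X + 1) := by linarith
  obtain ⟨P, hPdef⟩ : ∃ P : ℕ, P = ⌊q * (X + 1)⌋₊ := ⟨_, rfl⟩
  have hPle : (P : ℝ) ≤ q * (X + 1) := by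
    rw [hPdef]
    exact Nat.floor_le (by positivity)
  have hP1 : 1 ≤ P := by
    rw [hPdef]
    exact Nat.le_floor (by push_cast; nlinarith)
  have hpP : ∀ i, |p i| ≤ (P : ℤ) := by
    intro i
    have h1 : ((p i).natAbs : ℝ) ≤ q * (X + 1) := by
      rw [Nat.cast_natAbs, Int.cast_abs]
      exact hp i
    have h2 : (p i).natAbs ≤ P := by
      rw [hPdef]
      exact Nat.le_floor h1
    rw [Int.abs_eq_natAbs]
    exact_mod_cast h2
  obtain ⟨w, hw0, hwl, -, hwT⟩ := siegel (n + 1) (s + 1) (by omega)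
    (Fin.cons p (fun j i => l i j)) (Fin.cons P (fun _ => R))
    (fun j => by
      refine Fin.cases ?_ (fun j => ?_) j
      · simpa using hP1
      · simpa using hR1)
    (fun j i => by
      revert i
      refine Fin.cases ?_ (fun j => ?_) j
      · intro i
        simpa using hpP i
      · intro i
        simpa using hR j i) 1 le_rfl 0
  obtain ⟨T, hT⟩ : ∃ T : ℝ, T = C * (q : ℝ) ^ (1 / ((n : ℝ) - s)) := ⟨_, rfl⟩
  have hqr : 1 ≤ (q : ℝ) ^ (1 / ((n : ℝ) - s)) := Real.one_le_rpow hq1 (by positivity)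
  have hT1 : 1 ≤ T := by
    rw [hT]
    exact one_le_mul_of_one_le_of_one_le hC1 hqr
  have hwT' : ∀ i, |(w i : ℝ)| ≤ T := by
    intro i
    refine (hwT i).trans ?_
    have h1 : (((n + 1 : ℕ) : ℝ) - ((s + 1 : ℕ) : ℝ)) = (n : ℝ) - s := by
      push_cast
      ring
    rw [h1, hT, hC, ← Real.mul_rpow (by linarith) hq0.le]
    refine Real.rpow_le_rpow (by positivity) ?_ (by positivity)
    rw [Fin.prod_univ_succ]
    simp only [Fin.cons_zero, Fin.cons_succ, Nat.cast_one, one_mul]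
    rw [hY]
    calc (2 * ((n + 1 : ℕ) : ℝ) + 1) ^ (s + 1) * ((P : ℝ) * ∏ _j : Fin s, (R : ℝ))
        ≤ (2 * ((n + 1 : ℕ) : ℝ) + 1) ^ (s + 1) * ((q * (X + 1)) * ∏ _j : Fin s, (R : ℝ)) := by
          gcongr
      _ = _ := by ring
  have hwp : ∑ i, (w i : ℝ) * (p i : ℝ) = 0 := by
    have h1 := hwl 0
    simp only [Fin.cons_zero] at h1
    exact_mod_cast h1
  have hwl' : ∀ j : Fin s, ∑ i, w i * l i j = 0 := by
    intro j
    have h1 := hwl j.succ
    simpa only [Fin.cons_succ] using h1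
  -- the identity
  have hid : ∑ i, (w i : ℝ) * (q * (∑ j, l i j * t j + τ * r i * Real.exp (k i)) - p i) =
      q * τ * ∑ i, (w i : ℝ) * (r i * Real.exp (k i)) := by
    have h1 : ∑ i, (w i : ℝ) * ∑ j, (l i j : ℝ) * t j = 0 := by
      simp_rw [Finset.mul_sum]
      rw [Finset.sum_comm]
      refine Finset.sum_eq_zero fun j _ => ?_
      have h2 : ∑ i, (w i : ℝ) * ((l i j : ℝ) * t j) = ((∑ i, w i * l i j : ℤ) : ℝ) * t j := by
        push_cast
        rw [Finset.sum_mul]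
        exact Finset.sum_congr rfl fun i _ => by ring
      rw [h2, hwl' j]
      simp
    calc ∑ i, (w i : ℝ) * (q * (∑ j, l i j * t j + τ * r i * Real.exp (k i)) - p i)
        = q * (∑ i, (w i : ℝ) * ∑ j, (l i j : ℝ) * t j) +
          q * τ * (∑ i, (w i : ℝ) * (r i * Real.exp (k i))) - ∑ i, (w i : ℝ) * (p i : ℝ) := by
          rw [Finset.mul_sum, Finset.mul_sum, ← Finset.sum_add_distrib, ← Finset.sum_sub_distrib]
          exact Finset.sum_congr rfl fun i _ => by ring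
      _ = _ := by rw [h1, hwp]; ring
  have hup : |∑ i, (w i : ℝ) * (q * (∑ j, l i j * t j + τ * r i * Real.exp (k i)) - p i)| ≤
      (n + 1) * (T * δ) := by
    calc |∑ i, (w i : ℝ) * (q * (∑ j, l i j * t j + τ * r i * Real.exp (k i)) - p i)|
        ≤ ∑ i, |(w i : ℝ) * (q * (∑ j, l i j * t j + τ * r i * Real.exp (k i)) - p i)| :=
          Finset.abs_sum_le_sum_abs _ _
      _ ≤ ∑ _i : Fin (n + 1), (T * δ) := by
          refine Finset.sum_le_sum fun i _ => ?_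
          rw [abs_mul]
          exact mul_le_mul (hwT' i) (hcon i).le (abs_nonneg _) (by linarith)
      _ = (n + 1) * (T * δ) := by
          rw [Finset.sum_const, Finset.card_univ, Fintype.card_fin, nsmul_eq_mul]
          push_cast
          ring
  -- the linear form in the powers of `e`
  have hne : (fun i => w i * σ i) ≠ 0 := by
    intro h
    apply hw0
    funext i
    have h1 := congrFun h i
    simp only [Pi.zero_apply] at h1
    rcases mul_eq_zero.1 h1 with h2 | h2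
    · exact h2
    · exact absurd h2 (hσ i)
  have hform : ∑ i, ((w i * σ i : ℤ) : ℝ) * Real.exp (k i) =
      D * ∑ i, (w i : ℝ) * (r i * Real.exp (k i)) := by
    rw [Finset.mul_sum]
    refine Finset.sum_congr rfl fun i _ => ?_
    push_cast
    rw [← hDσ i]
    ring
  obtain ⟨Hh, hHh⟩ : ∃ Hh : ℝ, Hh = Sm * T := ⟨_, rfl⟩
  have h1 := hmeas (fun i => w i * σ i) hne Hh (by
    rw [hHh]
    exact one_le_mul_of_one_le_of_one_le (by linarith) hT1) (fun i => by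
    push_cast
    rw [abs_mul, hHh, mul_comm]
    exact mul_le_mul (hSm i) (hwT' i) (abs_nonneg _) (by linarith))
  rw [hform] at h1
  -- combine
  have h2 : q * |τ| * |D * ∑ i, (w i : ℝ) * (r i * Real.exp (k i))| ≤
      D * ((n + 1) * (T * δ)) := by
    rw [hid, abs_mul, abs_mul, abs_of_pos hq0] at hup
    rw [abs_mul, abs_of_pos hD0]
    calc q * |τ| * (D * |∑ i, (w i : ℝ) * (r i * Real.exp (k i))|)
        = D * (q * |τ| * |∑ i, (w i : ℝ) * (r i * Real.exp (k i))|) := by ring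
      _ ≤ _ := mul_le_mul_of_nonneg_left hup hD0.le
  have hHT : Hh = (Sm * C) * (q : ℝ) ^ (1 / ((n : ℝ) - s)) := by
    rw [hHh, hT]
    ring
  have h3 : c * |τ| * q ≤ Hh ^ ((n : ℝ) + η) * (D * ((n + 1) * (T * δ))) := by
    calc c * |τ| * q = c * (q * |τ|) := by ring
      _ ≤ (Hh ^ ((n : ℝ) + η) * |D * ∑ i, (w i : ℝ) * (r i * Real.exp (k i))|) * (q * |τ|) :=
          mul_le_mul_of_nonneg_right h1 (by positivity)
      _ = Hh ^ ((n : ℝ) + η) * (q * |τ| * |D * ∑ i, (w i : ℝ) * (r i * Real.exp (k i))|) := by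
          ring
      _ ≤ _ := mul_le_mul_of_nonneg_left h2 (by rw [hHT]; positivity)
  have h4 : Hh ^ ((n : ℝ) + η) * (D * ((n + 1) * (T * δ))) =
      ((Sm * C) ^ ((n : ℝ) + η) * D * ((n + 1) * C)) * ((q : ℝ) * ((q : ℝ) ^
        ((s + 1) / ((n : ℝ) - s) + η / ((n : ℝ) - s)) * δ)) := by
    rw [hHT, Real.mul_rpow (by positivity) (by positivity), hT, ← Real.rpow_mul hq0.le]
    have h5 : (q : ℝ) ^ (1 / ((n : ℝ) - s) * ((n : ℝ) + η)) * (q : ℝ) ^ (1 / ((n : ℝ) - s)) =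
        q * (q : ℝ) ^ ((s + 1) / ((n : ℝ) - s) + η / ((n : ℝ) - s)) := by
      rw [← Real.rpow_add hq0, ← Real.rpow_one_add' hq0.le (by positivity)]
      congr 1
      field_simp
      ring
    calc (Sm * C) ^ ((n : ℝ) + η) * (q : ℝ) ^ (1 / ((n : ℝ) - s) * ((n : ℝ) + η)) *
          (D * ((n + 1) * (C * (q : ℝ) ^ (1 / ((n : ℝ) - s)) * δ)))
        = ((Sm * C) ^ ((n : ℝ) + η) * D * ((n + 1) * C)) *
          (((q : ℝ) ^ (1 / ((n : ℝ) - s) * ((n : ℝ) + η)) *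
          (q : ℝ) ^ (1 / ((n : ℝ) - s))) * δ) := by ring
      _ = _ := by rw [h5]; ring
  have h5 : c₂ ≤ (q : ℝ) ^ ((s + 1) / ((n : ℝ) - s) + η / ((n : ℝ) - s)) * δ := by
    rw [hc₂, div_le_iff₀ (by positivity)]
    refine le_of_mul_le_mul_left ?_ hq0
    calc q * (c * |τ|) = c * |τ| * q := mul_comm _ _
      _ ≤ _ := h3
      _ = _ := h4
      _ = _ := by ring
  have h6 : (q : ℝ) ^ ((s + 1) / ((n : ℝ) - s) + η / ((n : ℝ) - s)) * δ ≤ c₂ / 2 := by
    have hqn : (q : ℝ) ^ (η / ((n : ℝ) - s) - η) ≤ 1 := by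
      apply Real.rpow_le_one_of_one_le_of_nonpos hq1
      have : η / ((n : ℝ) - s) ≤ η := div_le_self hη.le hMs
      linarith
    rw [hδdef]
    calc (q : ℝ) ^ ((s + 1) / ((n : ℝ) - s) + η / ((n : ℝ) - s)) *
          (min 1 (c₂ / 2) * (q : ℝ) ^ (-((s + 1) / ((n : ℝ) - s)) - η))
        = min 1 (c₂ / 2) * (q : ℝ) ^ (η / ((n : ℝ) - s) - η) := by
          rw [mul_left_comm, ← Real.rpow_add hq0]
          congr 2
          ring
      _ ≤ (c₂ / 2) * 1 := mul_le_mul (min_le_right _ _) hqn (by positivity) (by positivity)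
      _ = c₂ / 2 := mul_one _
  linarith

end Pool.Agent.TH536.EP
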