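import Pool.Agent.TH536.EP.Core

set_option autoImplicit false
set_option maxHeartbeats 1000000

/-! # A weighted Siegel lemma with one congruence -/

namespace Pool.Agent.TH536.EP

open Finset

theorem siegel (M m : ℕ) (hm : m < M) (ρ : Fin m → Fin M → ℤ) (R : Fin m → ℕ)
    (hR : ∀ j, 1 ≤ R j) (hρ : ∀ j i, |ρ j i| ≤ R j) (q : ℕ) (hq : 1 ≤ q) (p : Fin M → ℤ) :
    ∃ w : Fin M → ℤ, w ≠ 0 ∧ (∀ j, ∑ i, w i * ρ j i = 0) ∧ (∃ a : ℤ, ∑ i, w i * p i = q * a) ∧
      ∀ i, |(w i : ℝ)| ≤ ((q : ℝ) * ((2 * M + 1) ^ m * ∏ j, (R j : ℝ))) ^ (1 / ((M : ℝ) - m)) := by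
  have hM : (0 : ℝ) < (M : ℝ) - m := by
    have : (m : ℝ) < M := by exact_mod_cast hm
    linarith
  obtain ⟨Y, hY⟩ : ∃ Y : ℝ, Y = (q : ℝ) * ((2 * M + 1) ^ m * ∏ j, (R j : ℝ)) := ⟨_, rfl⟩
  rw [← hY]
  have hq1 : (1 : ℝ) ≤ q := by exact_mod_cast hq
  have hR1 : (1 : ℝ) ≤ ∏ j, (R j : ℝ) := by
    have h1 : ∏ _j : Fin m, (1 : ℝ) ≤ ∏ j, (R j : ℝ) :=
      Finset.prod_le_prod (fun _ _ => zero_le_one) (fun j _ => by exact_mod_cast hR j)
    simpa using h1
  have hM1 : (1 : ℝ) ≤ (2 * M + 1) ^ m := one_le_pow₀ (by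
    have : (0 : ℝ) ≤ M := Nat.cast_nonneg M
    linarith)
  have hY1 : 1 ≤ Y := by
    rw [hY]
    exact one_le_mul_of_one_le_of_one_le hq1 (one_le_mul_of_one_le_of_one_le hM1 hR1)
  obtain ⟨T, hTdef⟩ : ∃ T : ℕ, T = ⌊Y ^ (1 / ((M : ℝ) - m))⌋₊ := ⟨_, rfl⟩
  have hroot1 : 1 ≤ Y ^ (1 / ((M : ℝ) - m)) := Real.one_le_rpow hY1 (by positivity)
  have hTle : (T : ℝ) ≤ Y ^ (1 / ((M : ℝ) - m)) := by
    rw [hTdef]
    exact Nat.floor_le (by linarith)
  have hTgt : Y ^ (1 / ((M : ℝ) - m)) < T + 1 := by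
    rw [hTdef]
    exact Nat.lt_floor_add_one _
  have hTpow : Y < ((T : ℝ) + 1) ^ (M - m) := by
    have h1 : (Y ^ (1 / ((M : ℝ) - m))) ^ (M - m) = Y := by
      rw [← Real.rpow_natCast, ← Real.rpow_mul (by linarith), Nat.cast_sub hm.le, one_div,
        inv_mul_cancel₀ hM.ne', Real.rpow_one]
    calc Y = (Y ^ (1 / ((M : ℝ) - m))) ^ (M - m) := h1.symm
      _ < ((T : ℝ) + 1) ^ (M - m) := pow_lt_pow_left₀ hTgt (by positivity) (by omega)
  obtain ⟨B, hB⟩ : ∃ B : Fin m → ℕ, B = fun j => M * (T * R j) := ⟨_, rfl⟩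
  obtain ⟨u, v, huv, hw, hu, hv, hfuv⟩ := pigeon (fun _ : Fin M => T)
    ((Fintype.piFinset fun j => Finset.Icc (-(B j : ℤ)) (B j)) ×ˢ Finset.Ico (0 : ℤ) q)
    (fun u => ((fun j => ∑ i, u i * ρ j i), (∑ i, u i * p i) % (q : ℤ))) (by
      intro u hu
      rw [Finset.mem_product, Fintype.mem_piFinset]
      refine ⟨fun j => ?_, ?_⟩
      · have h1 : |∑ i, u i * ρ j i| ≤ B j := by
          calc |∑ i, u i * ρ j i| ≤ ∑ i, |u i * ρ j i| := Finset.abs_sum_le_sum_abs _ _
            _ ≤ ∑ _i : Fin M, ((T : ℤ) * R j) := by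
                refine Finset.sum_le_sum fun i _ => ?_
                rw [abs_mul, abs_of_nonneg (hu i).1]
                exact mul_le_mul (hu i).2 (hρ j i) (abs_nonneg _) (Int.natCast_nonneg _)
            _ = B j := by
                rw [hB, Finset.sum_const, Finset.card_univ, Fintype.card_fin, nsmul_eq_mul]
                push_cast
                ring
        rw [Finset.mem_Icc]
        exact abs_le.1 h1
      · rw [Finset.mem_Ico]
        exact ⟨Int.emod_nonneg _ (by omega), Int.emod_lt_of_pos _ (by omega)⟩) (by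
      rw [Finset.card_product, Fintype.card_piFinset, Finset.prod_const, Finset.card_univ,
        Fintype.card_fin, Int.card_Ico]
      have h2 : ∀ j, (Finset.Icc (-(B j : ℤ)) (B j)).card = 2 * B j + 1 := by
        intro j
        rw [Int.card_Icc]
        omega
      have h2' : ((q : ℤ) - 0).toNat = q := by simp
      rw [Finset.prod_congr rfl fun j _ => h2 j, h2']
      have h3 : (((∏ j, (2 * B j + 1)) * q : ℕ) : ℝ) < (((T + 1) ^ M : ℕ) : ℝ) := by
        push_cast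
        have h4 : ∏ j, (2 * (B j : ℝ) + 1) ≤ ∏ j, (((2 * M + 1) * (T + 1)) * (R j : ℝ)) := by
          refine Finset.prod_le_prod (fun _ _ => by positivity) (fun j _ => ?_)
          rw [hB]
          push_cast
          have h5 : (1 : ℝ) ≤ R j := by exact_mod_cast hR j
          have h6 : (0 : ℝ) ≤ T := Nat.cast_nonneg T
          have h7 : (0 : ℝ) ≤ M := Nat.cast_nonneg M
          have h8 : (0 : ℝ) ≤ 2 * M * R j := by positivity
          have h9 : (1 : ℝ) ≤ (T + 1) * R j := by nlinarith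
          nlinarith
        have h5 : ∏ j, (((2 * (M : ℝ) + 1) * (T + 1)) * (R j : ℝ)) =
            ((2 * M + 1) ^ m * ∏ j, (R j : ℝ)) * (T + 1) ^ m := by
          rw [Finset.prod_mul_distrib, Finset.prod_const, Finset.card_univ, Fintype.card_fin,
            mul_pow]
          ring
        calc (∏ j, (2 * (B j : ℝ) + 1)) * q
            ≤ (∏ j, (((2 * M + 1) * (T + 1)) * (R j : ℝ))) * q :=
              mul_le_mul_of_nonneg_right h4 (by positivity)
          _ = Y * (T + 1) ^ m := by rw [h5, hY]; ring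
          _ < (T + 1) ^ (M - m) * (T + 1) ^ m :=
              mul_lt_mul_of_pos_right hTpow (by positivity)
          _ = (T + 1) ^ M := by
              rw [← pow_add]
              congr 1
              omega
      exact_mod_cast h3)
  have hf1 : ∀ j, ∑ i, u i * ρ j i = ∑ i, v i * ρ j i := fun j =>
    congrFun (congrArg Prod.fst hfuv) j
  have hf2 : (∑ i, u i * p i) % (q : ℤ) = (∑ i, v i * p i) % (q : ℤ) := congrArg Prod.snd hfuv
  refine ⟨fun i => u i - v i, ?_, fun j => ?_, ?_, fun i => ?_⟩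
  · intro h
    apply huv
    funext i
    have := congrFun h i
    simp only [Pi.zero_apply] at this
    omega
  · simp only [sub_mul, Finset.sum_sub_distrib]
    rw [hf1 j, sub_self]
  · obtain ⟨a, ha⟩ := Int.ModEq.dvd
      (show (∑ i, v i * p i) ≡ (∑ i, u i * p i) [ZMOD q] from hf2.symm)
    refine ⟨a, ?_⟩
    simp only [sub_mul, Finset.sum_sub_distrib]
    exact ha
  · have h1 : |u i - v i| ≤ (T : ℤ) := hw i
    have h2 : ((|u i - v i| : ℤ) : ℝ) ≤ ((T : ℤ) : ℝ) := by exact_mod_cast h1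
    rw [Int.cast_abs, Int.cast_natCast] at h2
    exact h2.trans hTle

end Pool.Agent.TH536.EP
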